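import Pool.Agent.W518.PR.Asm
import Pool.Agent.W518.PRF.Bridge
import Pool.Agent.W924.PRProj
import Pool.Agent.W782.PRKer
import Pool.Agent.W120.PRSesz
import Pool.Agent.W639.PRTop
import Pool.Agent.W351.PRWZ
import Pool.Agent.W776.PRDB
import Pool.Agent.W73.PR.Acy
import Pool.Agent.W120.PRDec
import Pool.Agent.W748.PR.Conc
import Pool.Agent.W557.PRExt
import Pool.Agent.W577.PRFun

/-!
# Pre-`⌊n/2⌋`-rational does not imply pre-`n`-rational

Negative answer to Q2 of MP_aa861c_ag. The variety `X` is the cone over the smooth quadric of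
dimension `5` with respect to `O(3)`; it has dimension `n = 6`, it is normal and pre-`3`-rational,
but `ℋ^1(𝔻_X(Ω̲^1_X)) ≠ 0`, so it is not pre-`6`-rational. All definitions are in
`Pool/Agent/W518/PRF/Defs.lean` and `Pool/Agent/H907R3/Defs.lean`.
-/

set_option autoImplicit false

open Pool.Agent.H907R3 Pool.Agent.W518.PRF

/-- There is a normal affine complex variety `X = Spec R` of dimension `6` that is
pre-`3`-rational but not pre-`6`-rational. The Du Bois complexes are computed with a smooth affine
cubical hyperresolution `D`, the dualizing functor with a finite surjective morphism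
`π : X → 𝔸⁶`. -/
theorem Pool.Agent.Results.MP_aa861c_ag.PreRational.result :
    ∃ (R : Type) (_ : CommRing R) (_ : IsDomain R) (_ : IsIntegrallyClosed R) (_ : Algebra ℂ R)
      (_ : Algebra.FiniteType ℂ R) (D : CubicalHyperresolution R) (π : Normalization R 6),
      ringKrullDim R = 6 ∧ IsPreRational D π 3 ∧ ¬ IsPreRational D π 6 :=
  ⟨AA ∅, inferInstance, inferInstance, normal_R, inferInstance, finiteType_R, HH,
    ⟨ppi, ppi_injective, finite_ppi⟩, dim_R, by
      have h := Pool.Agent.W518.PR.Asm.final Pool.Agent.W748.PRConc.main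
        Pool.Agent.W518.PR.LES.main Pool.Agent.W518.PR.QI.main Pool.Agent.W557.PRExt.main
        Pool.Agent.W782.PRKer.main Pool.Agent.W924.PRProj.main Pool.Agent.W120.PRSesz.main
        Pool.Agent.W639.PRTop.main Pool.Agent.W351.PRWZ.main Pool.Agent.W776.PRDB.main
        Pool.Agent.W73.PRAcy.main Pool.Agent.W120.PRDec.main Pool.Agent.W577.PRFun.main
      rw [pre_iff, pre_iff]
      exact h⟩
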